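import Pool.Agent.R287.NAc

set_option autoImplicit false

open Pool.Agent.R287.NA

namespace Pool.Agent.Results.MP_5ffaeb_an.NADensityNotInherited

/-- Over every scalar field `𝕜 = ℝ, ℂ`: (1) there are Banach spaces `X`, `Y` and a nonzero closed
subspace `X₁` of `X`, the range of a norm-one projection, such that the norm attaining operators
are dense in `L(X, Y)` but not in `L(X₁, Y)`; (2) every nonzero Banach space `V` is isometric to a
closed one-complemented subspace of a Banach space `X` such that the norm attaining operators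
from `X` to `Z` are dense for every normed space `Z`. -/
theorem result.{u} (𝕜 : Type u) [RCLike 𝕜] :
    (∃ (X : Type u) (_ : NormedAddCommGroup X) (_ : NormedSpace 𝕜 X) (_ : CompleteSpace X)
      (Y : Type u) (_ : NormedAddCommGroup Y) (_ : NormedSpace 𝕜 Y) (_ : CompleteSpace Y)
      (X₁ : Submodule 𝕜 X), Nontrivial X₁ ∧ OneComplemented X₁ ∧ IsClosed (X₁ : Set X) ∧
      Dense (NA 𝕜 X Y) ∧ ¬ Dense (NA 𝕜 X₁ Y)) ∧
    ∀ (V : Type u) (_ : NormedAddCommGroup V) (_ : NormedSpace 𝕜 V) (_ : CompleteSpace V)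
      (_ : Nontrivial V),
      ∃ (X : Type u) (_ : NormedAddCommGroup X) (_ : NormedSpace 𝕜 X) (_ : CompleteSpace X)
        (X₁ : Submodule 𝕜 X), OneComplemented X₁ ∧ IsClosed (X₁ : Set X) ∧
        Nonempty (V ≃ₗᵢ[𝕜] X₁) ∧
        ∀ (Z : Type u) (_ : NormedAddCommGroup Z) (_ : NormedSpace 𝕜 Z), Dense (NA 𝕜 X Z) :=
  ⟨counterexample 𝕜, fun V _ _ _ _ => exists_embedding 𝕜 V⟩

end Pool.Agent.Results.MP_5ffaeb_an.NADensityNotInherited
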